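import Pool.Agent.Lib.MP_af3a4a_an.P1.CHK.DATA.N58x59.K0
import Pool.Agent.Lib.MP_af3a4a_an.P1.CHK.DATA.N58x59.K1
import Pool.Agent.Lib.MP_af3a4a_an.P1.CHK.DATA.N58x59.K2
import Pool.Agent.Lib.MP_af3a4a_an.P1.CHK.DATA.N58x59.K3
import Pool.Agent.Lib.MP_af3a4a_an.P1.CHK.DATA.N58x59.K4

/-! glue for 58 <= N <= 59 (generated) -/

set_option autoImplicit false
set_option maxRecDepth 100000

namespace Pool.Agent.Lib.MP_af3a4a_an.P1.CHK.DATA.N58x59

open BOX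

theorem g0 : ChunkP 58 59 0 512 64 96 0 2484 := ChunkP.g k1 k2
theorem g1 : ChunkP 58 59 0 512 64 101 0 2484 := ChunkP.g g0 k3
theorem g2 : ChunkP 58 59 0 512 0 101 0 2484 := ChunkP.g k0 g1
theorem g3 : ChunkP 58 59 768 896 80 88 1728 2484 := ChunkP.g k18 k19
theorem g4 : ChunkP 58 59 768 896 80 88 1680 2484 := ChunkP.R k17 g3
theorem g5 : ChunkP 58 59 768 896 80 88 1632 2484 := ChunkP.R k16 g4
theorem g6 : ChunkP 58 59 768 896 80 88 1488 2484 := ChunkP.R k15 g5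
theorem g7 : ChunkP 58 59 768 896 80 88 1248 2484 := ChunkP.R k14 g6
theorem g8 : ChunkP 58 59 768 1024 80 88 1248 2484 := ChunkP.r g7 k20
theorem g9 : ChunkP 58 59 768 1024 80 88 1200 2484 := ChunkP.R k13 g8
theorem g10 : ChunkP 58 59 768 1024 80 88 1104 2484 := ChunkP.R k12 g9
theorem g11 : ChunkP 58 59 768 1024 80 88 912 2484 := ChunkP.R k11 g10
theorem g12 : ChunkP 58 59 768 1024 80 88 576 2484 := ChunkP.R k10 g11
theorem g13 : ChunkP 58 59 768 1024 80 96 576 2484 := ChunkP.g g12 k21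
theorem g14 : ChunkP 58 59 768 1024 80 96 480 2484 := ChunkP.R k9 g13
theorem g15 : ChunkP 58 59 512 1024 80 96 480 2484 := ChunkP.r k8 g14
theorem g16 : ChunkP 58 59 512 1024 80 96 432 2484 := ChunkP.R k7 g15
theorem g17 : ChunkP 58 59 512 1024 80 96 0 2484 := ChunkP.R k6 g16
theorem g18 : ChunkP 58 59 512 1024 64 96 0 2484 := ChunkP.g k5 g17
theorem g19 : ChunkP 58 59 512 1024 64 101 0 2484 := ChunkP.g g18 k22
theorem g20 : ChunkP 58 59 512 1024 0 101 0 2484 := ChunkP.g k4 g19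
theorem g21 : ChunkP 58 59 0 1024 0 101 0 2484 := ChunkP.r g2 g20
theorem g22 : ChunkP 58 59 1024 1536 64 80 480 2484 := ChunkP.r k26 k27
theorem g23 : ChunkP 58 59 1024 1536 64 80 432 2484 := ChunkP.R k25 g22
theorem g24 : ChunkP 58 59 1024 1536 64 80 0 2484 := ChunkP.R k24 g23
theorem g25 : ChunkP 58 59 1024 1280 80 88 1248 2484 := ChunkP.r k34 k35
theorem g26 : ChunkP 58 59 1024 1280 80 88 1200 2484 := ChunkP.R k33 g25
theorem g27 : ChunkP 58 59 1024 1280 80 88 1104 2484 := ChunkP.R k32 g26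
theorem g28 : ChunkP 58 59 1024 1280 80 88 960 2484 := ChunkP.R k31 g27
theorem g29 : ChunkP 58 59 1024 1280 80 88 528 2484 := ChunkP.R k30 g28
theorem g30 : ChunkP 58 59 1024 1280 80 96 528 2484 := ChunkP.g g29 k36
theorem g31 : ChunkP 58 59 1024 1280 80 96 432 2484 := ChunkP.R k29 g30
theorem g32 : ChunkP 58 59 1024 1536 80 96 432 2484 := ChunkP.r g31 k37
theorem g33 : ChunkP 58 59 1024 1536 80 96 0 2484 := ChunkP.R k28 g32
theorem g34 : ChunkP 58 59 1024 1536 64 96 0 2484 := ChunkP.g g24 g33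
theorem g35 : ChunkP 58 59 1024 1536 64 101 0 2484 := ChunkP.g g34 k38
theorem g36 : ChunkP 58 59 1024 1536 0 101 0 2484 := ChunkP.g k23 g35
theorem g37 : ChunkP 58 59 1536 2048 80 96 480 1728 := ChunkP.r k42 k43
theorem g38 : ChunkP 58 59 1536 2048 80 96 480 2484 := ChunkP.R g37 k44
theorem g39 : ChunkP 58 59 1536 2048 80 96 0 2484 := ChunkP.R k41 g38
theorem g40 : ChunkP 58 59 1536 2048 64 96 0 2484 := ChunkP.g k40 g39
theorem g41 : ChunkP 58 59 1536 2048 64 101 0 2484 := ChunkP.g g40 k45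
theorem g42 : ChunkP 58 59 1536 2048 0 101 0 2484 := ChunkP.g k39 g41
theorem g43 : ChunkP 58 59 1024 2048 0 101 0 2484 := ChunkP.r g36 g42
theorem g44 : ChunkP 58 59 0 2048 0 101 0 2484 := ChunkP.r g21 g43
theorem g45 : ChunkP 58 59 2048 3072 0 101 0 2484 := ChunkP.r k46 k47
theorem g46 : ChunkP 58 59 2048 4096 0 101 0 2484 := ChunkP.r g45 k48
theorem g47 : ChunkP 58 59 0 4096 0 101 0 2484 := ChunkP.r g44 g46

/-- the whole box -/
theorem allBox : ChunkP 58 59 0 4096 0 101 0 2484 := g47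

theorem full {N : ℕ} (hNa : 58 ≤ N) (hNb : N ≤ 59) {z w : Fin N → ℂ} {R : ℝ} {σ : Fin N → ℂ}
    (hC : Pool.Agent.Lib.MP_af3a4a_an.P1.H80.Cfg2 N z w R σ) : ((2484 : ℕ) : ℝ) / 1024 < R := ChunkP.full allBox hNa hNb hC

end Pool.Agent.Lib.MP_af3a4a_an.P1.CHK.DATA.N58x59
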